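import Pool.Agent.U234.BP.Sums
import Pool.Agent.N825.FC.Fin

/-! Record prime gaps at the values of polynomials on products of arbitrary sets. -/

set_option autoImplicit false

namespace Pool.Agent.U234.BP

open Finset Polynomial Filter
open Pool.Agent.N825.FC (Many Many.mono crit)

/-- From the bound to the criterion. -/
theorem small {P : ℕ} [Fact P.Prime] {D : ℕ} {ε N x : ℝ} (hε : 0 < ε)
    (hP : 2 * (D : ℝ) ≤ (P : ℝ) ^ (ε / 4)) (hN : (P : ℝ) ^ (1 + ε) ≤ N) (hx0 : 0 ≤ x)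
    (hx : x ^ 2 ≤ D * (N * (P + Real.sqrt N * Real.sqrt P))) :
    x ≤ N * (P : ℝ) ^ (-(ε / 8)) := by
  have hP0 : (0 : ℝ) < P := by exact_mod_cast (Fact.out : P.Prime).pos
  have hP1 : (1 : ℝ) ≤ P := by exact_mod_cast (Fact.out : P.Prime).one_lt.le
  have hN0 : 0 < N := lt_of_lt_of_le (by positivity) hN
  have h1 : 2 * (D : ℝ) * P ≤ N * (P : ℝ) ^ (-(ε / 4)) := by
    calc 2 * (D : ℝ) * P ≤ (P : ℝ) ^ (ε / 4) * P := mul_le_mul_of_nonneg_right hP hP0.le
      _ ≤ (P : ℝ) ^ (3 * ε / 4) * P := by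
          refine mul_le_mul_of_nonneg_right ?_ hP0.le
          exact Real.rpow_le_rpow_of_exponent_le hP1 (by linarith)
      _ = (P : ℝ) ^ (1 + ε) * (P : ℝ) ^ (-(ε / 4)) := by
          nth_rw 2 [← Real.rpow_one (P : ℝ)]
          rw [← Real.rpow_add hP0, ← Real.rpow_add hP0]
          congr 1
          ring
      _ ≤ _ := mul_le_mul_of_nonneg_right hN (by positivity)
  have hs : (P : ℝ) ^ ((1 + ε) / 2) ≤ Real.sqrt N := by
    apply Real.le_sqrt_of_sq_le
    rw [← Real.rpow_natCast, ← Real.rpow_mul hP0.le]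
    refine le_trans (le_of_eq ?_) hN
    congr 1
    push_cast
    ring
  have h2 : 2 * (D : ℝ) * (Real.sqrt N * Real.sqrt P) ≤ N * (P : ℝ) ^ (-(ε / 4)) := by
    have h3 : 2 * (D : ℝ) * Real.sqrt P ≤ Real.sqrt N * (P : ℝ) ^ (-(ε / 4)) := by
      calc 2 * (D : ℝ) * Real.sqrt P ≤ (P : ℝ) ^ (ε / 4) * Real.sqrt P :=
            mul_le_mul_of_nonneg_right hP (Real.sqrt_nonneg _)
        _ = (P : ℝ) ^ ((1 + ε) / 2) * (P : ℝ) ^ (-(ε / 4)) := by
            rw [Real.sqrt_eq_rpow, ← Real.rpow_add hP0, ← Real.rpow_add hP0]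
            congr 1
            ring
        _ ≤ _ := mul_le_mul_of_nonneg_right hs (by positivity)
    calc 2 * (D : ℝ) * (Real.sqrt N * Real.sqrt P) = Real.sqrt N * (2 * (D : ℝ) * Real.sqrt P) := by
          ring
      _ ≤ Real.sqrt N * (Real.sqrt N * (P : ℝ) ^ (-(ε / 4))) :=
          mul_le_mul_of_nonneg_left h3 (Real.sqrt_nonneg _)
      _ = N * (P : ℝ) ^ (-(ε / 4)) := by
          rw [← mul_assoc, Real.mul_self_sqrt hN0.le]
  have h3 : x ^ 2 ≤ (N * (P : ℝ) ^ (-(ε / 8))) ^ 2 := by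
    have h4 : (N * (P : ℝ) ^ (-(ε / 8))) ^ 2 = N * (N * (P : ℝ) ^ (-(ε / 4))) := by
      have h5 : ((P : ℝ) ^ (-(ε / 8))) ^ 2 = (P : ℝ) ^ (-(ε / 4)) := by
        rw [← Real.rpow_natCast, ← Real.rpow_mul hP0.le]
        congr 1
        push_cast
        ring
      rw [mul_pow, h5]
      ring
    rw [h4]
    refine hx.trans ?_
    have h5 : D * (P + Real.sqrt N * Real.sqrt P) ≤ N * (P : ℝ) ^ (-(ε / 4)) := by linarith
    calc D * (N * (P + Real.sqrt N * Real.sqrt P)) = N * (D * (P + Real.sqrt N * Real.sqrt P)) := by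
          ring
      _ ≤ _ := mul_le_mul_of_nonneg_left h5 hN0.le
  exact (pow_le_pow_iff_left₀ hx0 (by positivity) two_ne_zero).1 h3

theorem large (D : ℕ) {ε : ℝ} (hε : 0 < ε) :
    ∃ N : ℕ, ∀ P : ℕ, N ≤ P → D < P ∧ 2 * (D : ℝ) ≤ (P : ℝ) ^ (ε / 4) := by
  have h1 : Tendsto (fun P : ℕ => (P : ℝ) ^ (ε / 4)) atTop atTop :=
    (tendsto_rpow_atTop (by positivity)).comp tendsto_natCast_atTop_atTop
  exact eventually_atTop.1 ((eventually_gt_atTop D).and (h1.eventually_ge_atTop _))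

/-- **The three families.** -/
theorem main (r : ℕ) (hr : 1 ≤ r) (ε : ℝ) (hε : 0 < ε) (hε1 : ε ≤ 1) :
    ∃ κ : ℝ, 0 < κ ∧ ∃ δ : ℝ, 0 < δ ∧ ∀ D : ℕ, ∃ P₀ : ℝ, ∀ (P : ℕ) [Fact P.Prime], P₀ ≤ P →
    ∀ A B : Finset (ZMod P), (P : ℝ) ^ (1 + ε) ≤ A.card * B.card →
    ∀ G K : Fin r → ZMod P → ZMod P,
    (∀ c : Fin r → Fin D → Fin D → ZMod P, LinearIndependent (ZMod P) c →
      Many κ ε δ P (A ×ˢ B) fun w i => pol (c i) w.1 w.2 + G i w.1 + K i w.2) ∧
    (∀ g : Fin r → (ZMod P)[X], (∀ i, (g i).natDegree ≤ D) →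
      (∀ h : Fin r → ZMod P, h ≠ 0 → 2 ≤ (∑ i, C (h i) * g i).natDegree) →
      Many κ ε δ P (A ×ˢ B) fun w i => (g i).eval (w.1 + w.2) + G i w.1 + K i w.2) ∧
    (∀ g : Fin r → (ZMod P)[X], (∀ i, (g i).natDegree ≤ D) →
      (∀ h : Fin r → ZMod P, h ≠ 0 → 1 ≤ (∑ i, C (h i) * g i).natDegree) →
      Many κ ε δ P (A ×ˢ B) fun w i => (g i).eval (w.1 * w.2) + G i w.1 + K i w.2) := by
  obtain ⟨κ, hκ, δ, hδ, P₀, H⟩ := crit r hr (ε / 8) (by positivity) (by linarith)
  refine ⟨κ, hκ, δ, hδ, fun D => ?_⟩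
  obtain ⟨N, hN⟩ := large D hε
  refine ⟨max P₀ N, fun P _ hP A B hAB G K => ?_⟩
  obtain ⟨hDP, hD2⟩ := hN P (by exact_mod_cast (le_max_right P₀ (N : ℝ)).trans hP)
  have hP1 : (1 : ℝ) ≤ P := by exact_mod_cast (Fact.out : P.Prime).one_lt.le
  have hne : (A ×ˢ B).Nonempty := by
    rw [← card_pos, card_product]
    have h1 : (0 : ℝ) < A.card * B.card := lt_of_lt_of_le (by positivity) hAB
    exact_mod_cast h1
  -- the general case
  have gen : ∀ φ : Fin r → ZMod P → ZMod P → ZMod P,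
      (∀ h : Fin r → ZMod P, h ≠ 0 → ∀ G K : ZMod P → ZMod P,
        ‖∑ a ∈ A, ∑ b ∈ B, (ZMod.stdAddChar (∑ i, h i * φ i a b + G a + K b) : ℂ)‖ ^ 2 ≤
        D * (A.card * B.card * (P + Real.sqrt (A.card * B.card) * Real.sqrt P))) →
      Many κ ε δ P (A ×ˢ B) fun w i => φ i w.1 w.2 + G i w.1 + K i w.2 := by
    intro φ hφ
    refine Many.mono hP1 (by linarith : ε / 8 ≤ ε)
      (H P ((le_max_left _ _).trans hP) _ (A ×ˢ B) _ hne fun h hh => ?_)
    rw [card_product]
    push_cast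
    refine small hε hD2 hAB (norm_nonneg _) ?_
    have h1 := hφ h hh (fun a => ∑ i, h i * G i a) (fun b => ∑ i, h i * K i b)
    refine le_trans (le_of_eq ?_) h1
    rw [sum_product]
    congr 2
    refine sum_congr rfl fun a _ => sum_congr rfl fun b _ => ?_
    congr 1
    rw [← sum_add_distrib, ← sum_add_distrib]
    exact sum_congr rfl fun i _ => by ring
  have arr : ∀ c : Fin r → Fin D → Fin D → ZMod P, LinearIndependent (ZMod P) c →
      ∀ h : Fin r → ZMod P, h ≠ 0 → ∀ G K : ZMod P → ZMod P,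
      ‖∑ a ∈ A, ∑ b ∈ B, (ZMod.stdAddChar (∑ i, h i * pol (c i) a b + G a + K b) : ℂ)‖ ^ 2 ≤
        D * (A.card * B.card * (P + Real.sqrt (A.card * B.card) * Real.sqrt P)) := by
    intro c hc h hh G K
    have h1 : ∑ i, h i • c i ≠ 0 := by
      intro h0
      exact hh (funext fun i => Fintype.linearIndependent_iff.1 hc h h0 i)
    refine le_trans (le_of_eq ?_) (bound hDP _ h1 A B G K)
    congr 2
    refine sum_congr rfl fun a _ => sum_congr rfl fun b _ => ?_
    congr 3
    unfold pol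
    simp only [mul_sum]
    rw [sum_comm]
    refine sum_congr rfl fun k _ => ?_
    rw [sum_comm]
    refine sum_congr rfl fun m _ => ?_
    simp only [Finset.sum_apply, Pi.smul_apply, smul_eq_mul, sum_mul]
    exact sum_congr rfl fun i _ => by ring
  refine ⟨fun c hc => gen (fun i => pol (c i)) (arr c hc), fun g hgD hg => ?_, fun g hgD hg => ?_⟩
  · refine gen (fun i a b => (g i).eval (a + b)) fun h hh G K => ?_
    refine le_trans (le_of_eq ?_) (bound_sum hDP (∑ i, C (h i) * g i) (hg h hh) ?_ A B G K)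
    · congr 2
      refine sum_congr rfl fun a _ => sum_congr rfl fun b _ => ?_
      rw [eval_finsetSum]
      simp only [eval_C_mul]
    · exact natDegree_sum_le_of_forall_le _ _ fun i _ => (natDegree_C_mul_le _ _).trans (hgD i)
  · -- products
    set c : Fin r → Fin D → Fin D → ZMod P := fun i k m =>
      if k = m then (g i).coeff ((k : ℕ) + 1) else 0 with hc
    have hpol : ∀ i a b, (g i).eval (a * b) = pol (c i) a b + (g i).coeff 0 := by
      intro i a b
      rw [eval_eq_sum_range' (n := D + 1) ((hgD i).trans_lt (Nat.lt_succ_self D)),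
        sum_range_succ', pow_zero, mul_one]
      congr 1
      unfold pol
      rw [← Fin.sum_univ_eq_sum_range (fun k => (g i).coeff (k + 1) * (a * b) ^ (k + 1))]
      refine sum_congr rfl fun k _ => ?_
      rw [sum_eq_single k]
      · simp only [hc, if_true]
        rw [mul_pow]
        ring
      · intro m _ hm
        simp only [hc]
        rw [if_neg (Ne.symm hm)]
        ring
      · intro h
        exact absurd (mem_univ _) h
    have hlin : LinearIndependent (ZMod P) c := by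
      rw [Fintype.linearIndependent_iff]
      intro h h0 i
      by_contra hi
      have hh : h ≠ 0 := fun h' => hi (congrFun h' i)
      have h1 := hg h hh
      have h2 : (∑ i, C (h i) * g i).natDegree ≤ D :=
        natDegree_sum_le_of_forall_le _ _ fun i _ => (natDegree_C_mul_le _ _).trans (hgD i)
      set q := ∑ i, C (h i) * g i with hq
      have h3 : q.coeff q.natDegree ≠ 0 :=
        leadingCoeff_ne_zero.2 (fun h => by rw [h] at h1; simp at h1)
      apply h3
      obtain ⟨n, hn⟩ : ∃ n, q.natDegree = n + 1 := ⟨q.natDegree - 1, by omega⟩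
      have hnD : n < D := by omega
      have h4 := congrFun (congrFun h0 ⟨n, hnD⟩) ⟨n, hnD⟩
      simp only [Finset.sum_apply, Pi.smul_apply, smul_eq_mul, hc, if_true, Pi.zero_apply] at h4
      rw [hn, hq, finsetSum_coeff]
      simp only [coeff_C_mul]
      exact h4
    have h1 := gen (fun i => pol (c i)) (arr c hlin)
    have h2 : ∀ (w : ZMod P × ZMod P) (i : Fin r), (g i).eval (w.1 * w.2) + G i w.1 + K i w.2 =
        pol (c i) w.1 w.2 + (G i w.1 + (g i).coeff 0) + K i w.2 := by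
      intro w i
      rw [hpol]
      ring
    clear h1
    -- the same with the changed function `G`
    refine Many.mono hP1 (by linarith : ε / 8 ≤ ε)
      (H P ((le_max_left _ _).trans hP) _ (A ×ˢ B) _ hne fun h hh => ?_)
    rw [card_product]
    push_cast
    refine small hε hD2 hAB (norm_nonneg _) ?_
    have h1 := arr c hlin h hh (fun a => ∑ i, h i * (G i a + (g i).coeff 0))
      (fun b => ∑ i, h i * K i b)
    refine le_trans (le_of_eq ?_) h1
    rw [sum_product]
    congr 2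
    refine sum_congr rfl fun a _ => sum_congr rfl fun b _ => ?_
    congr 1
    rw [← sum_add_distrib, ← sum_add_distrib]
    exact sum_congr rfl fun i _ => by rw [h2 (a, b) i]; ring

end Pool.Agent.U234.BP
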