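import Pool.Agent.U234.DS.Basic
import Pool.Agent.Y951.WP.Main

/-! Exponential sums of polynomials in two variables over products of arbitrary sets. -/

set_option autoImplicit false

namespace Pool.Agent.U234.BP

open Finset Polynomial
open Pool.Agent.U234.DS (F char_sum conj_char norm_char)

variable {P : ℕ} [Fact P.Prime]

theorem weil {D : ℕ} (hD : D < P) (f : (ZMod P)[X]) (hf : f.natDegree ≤ D)
    (h1 : 1 ≤ f.natDegree) :
    ‖∑ x : ZMod P, (ZMod.stdAddChar (f.eval x) : ℂ)‖ ≤ D * Real.sqrt P := by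
  have h2 := Pool.Agent.Y951.WP.weil_le P f (fun hd => by
    have := Nat.le_of_dvd (by omega) hd
    omega) (ZMod.isPrimitive_stdAddChar P)
  refine h2.trans (mul_le_mul_of_nonneg_right ?_ (Real.sqrt_nonneg _))
  exact_mod_cast (by omega : f.natDegree - 1 ≤ D)

theorem cauchy (A B : Finset (ZMod P)) (g : ZMod P → ZMod P → ZMod P) (G K : ZMod P → ZMod P) :
    ‖∑ a ∈ A, ∑ b ∈ B, (ZMod.stdAddChar (g a b + G a + K b) : ℂ)‖ ^ 2 ≤
      A.card * ∑ b ∈ B, ∑ b' ∈ B, ‖∑ x : ZMod P, (ZMod.stdAddChar (g x b - g x b') : ℂ)‖ := by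
  set S : ZMod P → ℂ := fun x => ∑ b ∈ B, (ZMod.stdAddChar (g x b + K b) : ℂ) with hS
  have h1 : ‖∑ a ∈ A, ∑ b ∈ B, (ZMod.stdAddChar (g a b + G a + K b) : ℂ)‖ ≤ ∑ a ∈ A, ‖S a‖ := by
    refine (norm_sum_le _ _).trans (le_of_eq (sum_congr rfl fun a _ => ?_))
    have h2 : ∑ b ∈ B, (ZMod.stdAddChar (g a b + G a + K b) : ℂ) = ZMod.stdAddChar (G a) * S a := by
      rw [hS, mul_sum]
      refine sum_congr rfl fun b _ => ?_
      rw [← AddChar.map_add_eq_mul]
      congr 1
      ring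
    rw [h2, norm_mul, norm_char, one_mul]
  have h2 : (∑ a ∈ A, ‖S a‖) ^ 2 ≤ A.card * ∑ x : ZMod P, ‖S x‖ ^ 2 := by
    refine sq_sum_le_card_mul_sum_sq.trans (mul_le_mul_of_nonneg_left ?_ (Nat.cast_nonneg _))
    exact sum_le_sum_of_subset_of_nonneg (subset_univ _) fun _ _ _ => by positivity
  have h3 : ∑ x : ZMod P, ‖S x‖ ^ 2 ≤
      ∑ b ∈ B, ∑ b' ∈ B, ‖∑ x : ZMod P, (ZMod.stdAddChar (g x b - g x b') : ℂ)‖ := by
    have h4 : ((∑ x : ZMod P, ‖S x‖ ^ 2 : ℝ) : ℂ) = ∑ b ∈ B, ∑ b' ∈ B,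
        ZMod.stdAddChar (K b - K b') * ∑ x : ZMod P, (ZMod.stdAddChar (g x b - g x b') : ℂ) := by
      have h5 : ((∑ x : ZMod P, ‖S x‖ ^ 2 : ℝ) : ℂ) =
          ∑ x : ZMod P, S x * (starRingEnd ℂ) (S x) := by
        push_cast
        refine sum_congr rfl fun x _ => ?_
        rw [Complex.mul_conj, Complex.normSq_eq_norm_sq]
        push_cast
        rfl
      rw [h5]
      have h6 : ∀ x, S x * (starRingEnd ℂ) (S x) = ∑ b ∈ B, ∑ b' ∈ B,
          ZMod.stdAddChar (K b - K b') * (ZMod.stdAddChar (g x b - g x b') : ℂ) := by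
        intro x
        rw [hS, map_sum, sum_mul_sum]
        refine sum_congr rfl fun b _ => sum_congr rfl fun b' _ => ?_
        rw [conj_char, ← AddChar.map_add_eq_mul, ← AddChar.map_add_eq_mul]
        congr 1
        ring
      rw [sum_congr rfl fun x _ => h6 x, sum_comm]
      refine sum_congr rfl fun b _ => ?_
      rw [sum_comm]
      exact sum_congr rfl fun b' _ => by rw [mul_sum]
    have h5 : ∑ x : ZMod P, ‖S x‖ ^ 2 = ‖((∑ x : ZMod P, ‖S x‖ ^ 2 : ℝ) : ℂ)‖ := by
      rw [Complex.norm_real, Real.norm_of_nonneg (sum_nonneg fun _ _ => by positivity)]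
    rw [h5, h4]
    refine (norm_sum_le _ _).trans (sum_le_sum fun b _ => (norm_sum_le _ _).trans
      (sum_le_sum fun b' _ => ?_))
    rw [norm_mul, norm_char, one_mul]
  calc _ ≤ (∑ a ∈ A, ‖S a‖) ^ 2 := pow_le_pow_left₀ (norm_nonneg _) h1 2
    _ ≤ _ := h2.trans (mul_le_mul_of_nonneg_left h3 (Nat.cast_nonneg _))

/-- The polynomial with the coefficients `c k m` at `x ^ (k + 1) y ^ (m + 1)`. -/
def pol {D : ℕ} (c : Fin D → Fin D → ZMod P) (x y : ZMod P) : ZMod P :=
  ∑ k, ∑ m, c k m * x ^ ((k : ℕ) + 1) * y ^ ((m : ℕ) + 1)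

theorem coeff_sum {D : ℕ} (u : Fin D → ZMod P) (k₀ : Fin D) :
    (∑ k : Fin D, C (u k) * X ^ ((k : ℕ) + 1) : (ZMod P)[X]).coeff ((k₀ : ℕ) + 1) = u k₀ := by
  rw [finsetSum_coeff, sum_eq_single k₀]
  · simp
  · intro k _ hk
    rw [coeff_C_mul, coeff_X_pow, if_neg, mul_zero]
    intro h
    apply hk
    apply Fin.ext
    omega
  · intro h
    exact absurd (mem_univ _) h

theorem natDegree_sum {D : ℕ} (u : Fin D → ZMod P) :
    (∑ k : Fin D, C (u k) * X ^ ((k : ℕ) + 1) : (ZMod P)[X]).natDegree ≤ D := by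
  refine natDegree_sum_le_of_forall_le _ _ fun k _ => ?_
  refine (natDegree_C_mul_X_pow_le _ _).trans ?_
  omega

theorem eval_sum {D : ℕ} (u : Fin D → ZMod P) (x : ZMod P) :
    (∑ k : Fin D, C (u k) * X ^ ((k : ℕ) + 1) : (ZMod P)[X]).eval x =
      ∑ k : Fin D, u k * x ^ ((k : ℕ) + 1) := by
  rw [eval_finsetSum]
  simp

theorem count {D : ℕ} (u : Fin D → ZMod P) {m₀ : Fin D} (hu : u m₀ ≠ 0) (B : Finset (ZMod P))
    (t : ZMod P) :
    (B.filter fun y => ∑ m : Fin D, u m * y ^ ((m : ℕ) + 1) = t).card ≤ D := by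
  set q : (ZMod P)[X] := ∑ m : Fin D, C (u m) * X ^ ((m : ℕ) + 1) - C t with hq
  have hq0 : q ≠ 0 := by
    intro h
    have h1 : q.coeff ((m₀ : ℕ) + 1) = 0 := by rw [h, coeff_zero]
    rw [hq, coeff_sub, coeff_sum, coeff_C, if_neg (by omega), sub_zero] at h1
    exact hu h1
  have hqd : q.natDegree ≤ D := by
    rw [natDegree_sub_C]
    exact natDegree_sum u
  have h1 : (B.filter fun y => ∑ m : Fin D, u m * y ^ ((m : ℕ) + 1) = t) ⊆ q.roots.toFinset := by
    intro y hy
    rw [Multiset.mem_toFinset, mem_roots hq0, IsRoot.def, hq, eval_sub, eval_sum, eval_C,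
      (mem_filter.1 hy).2, sub_self]
  exact (card_le_card h1).trans ((Multiset.toFinset_card_le _).trans ((card_roots' q).trans hqd))

/-- One half of the bound, general form. -/
theorem halfAbs {D : ℕ} (hD : D < P) (φ : ZMod P → ZMod P → ZMod P)
    (f : ZMod P → ZMod P → (ZMod P)[X]) (hf : ∀ b b', (f b b').natDegree ≤ D)
    (hφ : ∀ x b b', φ x b - φ x b' = (f b b').eval x)
    (A B : Finset (ZMod P)) (hB : ∀ b, (B.filter fun b' => (f b b').natDegree = 0).card ≤ D)
    (G K : ZMod P → ZMod P) :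
    ‖∑ a ∈ A, ∑ b ∈ B, (ZMod.stdAddChar (φ a b + G a + K b) : ℂ)‖ ^ 2 ≤
      D * (A.card * B.card * (P + B.card * Real.sqrt P)) := by
  classical
  refine (cauchy A B φ G K).trans ?_
  have h1 : ∀ b b', ‖∑ x : ZMod P, (ZMod.stdAddChar (φ x b - φ x b') : ℂ)‖ ≤
      (if (f b b').natDegree = 0 then (P : ℝ) else 0) + D * Real.sqrt P := by
    intro b b'
    split_ifs with hbb
    · refine (norm_sum_le _ _).trans ?_
      simp only [norm_char, sum_const, card_univ, ZMod.card, nsmul_eq_mul, mul_one]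
      have : (0 : ℝ) ≤ D * Real.sqrt P := by positivity
      linarith
    · rw [zero_add]
      simp only [hφ]
      exact weil hD (f b b') (hf b b') (by omega)
  have h2 : ∑ b ∈ B, ∑ b' ∈ B, ‖∑ x : ZMod P, (ZMod.stdAddChar (φ x b - φ x b') : ℂ)‖ ≤
      B.card * (D * P + B.card * (D * Real.sqrt P)) := by
    rw [← nsmul_eq_mul]
    refine sum_le_card_nsmul _ _ _ fun b _ => ?_
    refine (sum_le_sum fun b' _ => h1 b b').trans ?_
    rw [sum_add_distrib, sum_const, nsmul_eq_mul, ← sum_filter, sum_const, nsmul_eq_mul]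
    have h3 : ((B.filter fun b' => (f b b').natDegree = 0).card : ℝ) ≤ D := by
      exact_mod_cast hB b
    have h4 : ((B.filter fun b' => (f b b').natDegree = 0).card : ℝ) * P ≤ D * P :=
      mul_le_mul_of_nonneg_right h3 (Nat.cast_nonneg _)
    linarith
  refine (mul_le_mul_of_nonneg_left h2 (Nat.cast_nonneg _)).trans (le_of_eq ?_)
  ring

/-- One half of the bound. -/
theorem half {D : ℕ} (hD : D < P) (c : Fin D → Fin D → ZMod P) (hc : c ≠ 0)
    (A B : Finset (ZMod P)) (G K : ZMod P → ZMod P) :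
    ‖∑ a ∈ A, ∑ b ∈ B, (ZMod.stdAddChar (pol c a b + G a + K b) : ℂ)‖ ^ 2 ≤
      D * (A.card * B.card * (P + B.card * Real.sqrt P)) := by
  classical
  obtain ⟨k₀, m₀, hkm⟩ : ∃ k m, c k m ≠ 0 := by
    by_contra hcon
    push Not at hcon
    exact hc (by funext k m; exact hcon k m)
  set u : ZMod P → ZMod P → Fin D → ZMod P := fun b b' k =>
    ∑ m : Fin D, c k m * (b ^ ((m : ℕ) + 1) - b' ^ ((m : ℕ) + 1)) with hu
  refine halfAbs hD (pol c) (fun b b' => ∑ k : Fin D, C (u b b' k) * X ^ ((k : ℕ) + 1))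
    (fun b b' => natDegree_sum _) (fun x b b' => ?_) A B (fun b => ?_) G K
  · rw [eval_sum]
    unfold pol
    rw [← sum_sub_distrib]
    refine sum_congr rfl fun k _ => ?_
    rw [← sum_sub_distrib, hu, sum_mul]
    refine sum_congr rfl fun m _ => ?_
    ring
  · refine (card_le_card fun b' hb' => ?_).trans (count (c k₀) hkm B
      (∑ m : Fin D, c k₀ m * b ^ ((m : ℕ) + 1)))
    obtain ⟨h1, h2⟩ := mem_filter.1 hb'
    refine mem_filter.2 ⟨h1, ?_⟩
    by_contra hcon
    have h3 : (∑ k : Fin D, C (u b b' k) * X ^ ((k : ℕ) + 1) : (ZMod P)[X]).coeff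
        ((k₀ : ℕ) + 1) ≠ 0 := by
      rw [coeff_sum]
      intro h
      apply hcon
      simp only [hu, mul_sub, sum_sub_distrib] at h
      exact (sub_eq_zero.1 h).symm
    have h4 := le_natDegree_of_ne_zero h3
    omega

/-- The sums `g (a + b)`. -/
theorem half_sum {D : ℕ} (hD : D < P) (g : (ZMod P)[X]) (h2 : 2 ≤ g.natDegree)
    (hg : g.natDegree ≤ D) (A B : Finset (ZMod P)) (G K : ZMod P → ZMod P) :
    ‖∑ a ∈ A, ∑ b ∈ B, (ZMod.stdAddChar (g.eval (a + b) + G a + K b) : ℂ)‖ ^ 2 ≤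
      D * (A.card * B.card * (P + B.card * Real.sqrt P)) := by
  classical
  obtain ⟨n, hn⟩ : ∃ n, g.natDegree = n + 1 := ⟨g.natDegree - 1, by omega⟩
  refine halfAbs hD (fun a b => g.eval (a + b)) (fun b b' => taylor b g - taylor b' g)
    (fun b b' => ?_) (fun x b b' => ?_) A B (fun b => ?_) G K
  · refine (natDegree_sub_le _ _).trans ?_
    rw [natDegree_taylor, natDegree_taylor, max_self]
    exact hg
  · rw [eval_sub, taylor_eval, taylor_eval]
  · have h1 : (B.filter fun b' => (taylor b g - taylor b' g).natDegree = 0) ⊆ {b} := by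
      intro b' hb'
      rw [mem_singleton]
      by_contra hne
      have h3 : (taylor b g - taylor b' g).coeff n ≠ 0 := by
        have key : ∀ t, (taylor t g).coeff n = g.coeff n + (n + 1 : ℕ) * g.coeff (n + 1) * t := by
          intro t
          rw [taylor_coeff, eval_eq_sum_range' (n := 2)
            ((natDegree_hasseDeriv_le g n).trans_lt (by omega)), sum_range_succ, sum_range_one,
            hasseDeriv_coeff, hasseDeriv_coeff, zero_add, Nat.choose_self, add_comm 1 n,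
            Nat.choose_succ_self_right]
          push_cast
          ring
        rw [coeff_sub, key, key]
        have h4 : g.coeff (n + 1) ≠ 0 := by
          rw [← hn]
          exact leadingCoeff_ne_zero.2 (fun h => by rw [h] at h2; simp at h2)
        have h5 : ((n + 1 : ℕ) : ZMod P) ≠ 0 := by
          rw [Ne, ZMod.natCast_eq_zero_iff]
          intro hd
          have := Nat.le_of_dvd (by omega) hd
          omega
        have h6 : g.coeff n + (n + 1 : ℕ) * g.coeff (n + 1) * b -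
            (g.coeff n + (n + 1 : ℕ) * g.coeff (n + 1) * b') =
            (n + 1 : ℕ) * g.coeff (n + 1) * (b - b') := by ring
        rw [h6]
        exact mul_ne_zero (mul_ne_zero h5 h4) (sub_ne_zero.2 (Ne.symm hne))
      have h7 := le_natDegree_of_ne_zero h3
      have h8 := (mem_filter.1 hb').2
      omega
    refine (card_le_card h1).trans ?_
    rw [card_singleton]
    omega

theorem pol_swap {D : ℕ} (c : Fin D → Fin D → ZMod P) (x y : ZMod P) :
    pol c x y = pol (fun k m => c m k) y x := by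
  unfold pol
  rw [sum_comm]
  refine sum_congr rfl fun m _ => sum_congr rfl fun k _ => ?_
  ring

/-- **The bound.** -/
theorem bound {D : ℕ} (hD : D < P) (c : Fin D → Fin D → ZMod P) (hc : c ≠ 0)
    (A B : Finset (ZMod P)) (G K : ZMod P → ZMod P) :
    ‖∑ a ∈ A, ∑ b ∈ B, (ZMod.stdAddChar (pol c a b + G a + K b) : ℂ)‖ ^ 2 ≤
      D * (A.card * B.card * (P + Real.sqrt (A.card * B.card) * Real.sqrt P)) := by
  have key : ∀ (c : Fin D → Fin D → ZMod P) (_ : c ≠ 0) (A B : Finset (ZMod P))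
      (G K : ZMod P → ZMod P), B.card ≤ A.card →
      ‖∑ a ∈ A, ∑ b ∈ B, (ZMod.stdAddChar (pol c a b + G a + K b) : ℂ)‖ ^ 2 ≤
      D * (A.card * B.card * (P + Real.sqrt (A.card * B.card) * Real.sqrt P)) := by
    intro c hc A B G K hAB
    refine (half hD c hc A B G K).trans ?_
    have h1 : (B.card : ℝ) ≤ Real.sqrt (A.card * B.card) := by
      apply Real.le_sqrt_of_sq_le
      rw [sq]
      have : (B.card : ℝ) ≤ A.card := by exact_mod_cast hAB
      exact mul_le_mul_of_nonneg_right this (Nat.cast_nonneg _)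
    gcongr
  rcases le_total B.card A.card with h | h
  · exact key c hc A B G K h
  · have h1 := key (fun k m => c m k) (fun h => hc (by
      funext k m
      exact congrFun (congrFun h m) k)) B A K G h
    rw [sum_comm]
    have h2 : ∑ b ∈ B, ∑ a ∈ A, (ZMod.stdAddChar (pol c a b + G a + K b) : ℂ) =
        ∑ b ∈ B, ∑ a ∈ A, (ZMod.stdAddChar (pol (fun k m => c m k) b a + K b + G a) : ℂ) := by
      refine sum_congr rfl fun b _ => sum_congr rfl fun a _ => ?_
      rw [pol_swap]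
      congr 1
      ring
    rw [h2]
    refine h1.trans (le_of_eq ?_)
    rw [mul_comm (B.card : ℝ) (A.card : ℝ)]

/-- **The bound for sums.** -/
theorem bound_sum {D : ℕ} (hD : D < P) (g : (ZMod P)[X]) (h2 : 2 ≤ g.natDegree)
    (hg : g.natDegree ≤ D) (A B : Finset (ZMod P)) (G K : ZMod P → ZMod P) :
    ‖∑ a ∈ A, ∑ b ∈ B, (ZMod.stdAddChar (g.eval (a + b) + G a + K b) : ℂ)‖ ^ 2 ≤
      D * (A.card * B.card * (P + Real.sqrt (A.card * B.card) * Real.sqrt P)) := by
  have key : ∀ (A B : Finset (ZMod P)) (G K : ZMod P → ZMod P), B.card ≤ A.card →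
      ‖∑ a ∈ A, ∑ b ∈ B, (ZMod.stdAddChar (g.eval (a + b) + G a + K b) : ℂ)‖ ^ 2 ≤
      D * (A.card * B.card * (P + Real.sqrt (A.card * B.card) * Real.sqrt P)) := by
    intro A B G K hAB
    refine (half_sum hD g h2 hg A B G K).trans ?_
    have h1 : (B.card : ℝ) ≤ Real.sqrt (A.card * B.card) := by
      apply Real.le_sqrt_of_sq_le
      rw [sq]
      have : (B.card : ℝ) ≤ A.card := by exact_mod_cast hAB
      exact mul_le_mul_of_nonneg_right this (Nat.cast_nonneg _)
    gcongr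
  rcases le_total B.card A.card with h | h
  · exact key A B G K h
  · have h1 := key B A K G h
    rw [sum_comm]
    have h2 : ∑ b ∈ B, ∑ a ∈ A, (ZMod.stdAddChar (g.eval (a + b) + G a + K b) : ℂ) =
        ∑ b ∈ B, ∑ a ∈ A, (ZMod.stdAddChar (g.eval (b + a) + K b + G a) : ℂ) := by
      refine sum_congr rfl fun b _ => sum_congr rfl fun a _ => ?_
      rw [add_comm a b]
      congr 1
      ring
    rw [h2]
    refine h1.trans (le_of_eq ?_)
    rw [mul_comm (B.card : ℝ) (A.card : ℝ)]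

end Pool.Agent.U234.BP
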